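import Pool.Agent.H499R2.NDWord

set_option autoImplicit false

/-! The distribution of `t(n) / n`, `t(n)` the maximum excursion of `n`. -/

namespace Pool.Agent.Results.MP_0a5adf_nt.ExcursionLaw

open Filter Topology

/-- the accelerated `3x+1` map -/
def T (n : ℕ) : ℕ := if n % 2 = 0 then n / 2 else (3 * n + 1) / 2

/-- `t(n) < ∞` -/
def FiniteExcursion (n : ℕ) : Prop := ∃ M : ℕ, ∀ k, T^[k] n ≤ M

/-- `t(n) ≤ c` -/
def ExcursionLE (n : ℕ) (c : ℝ) : Prop := ∀ k, (T^[k] n : ℝ) ≤ c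

/-- the positive integers with the property `P` have the natural density `δ` -/
def HasDensity (P : ℕ → Prop) (δ : ℝ) : Prop :=
  Tendsto (fun N : ℕ => ({n : ℕ | 1 ≤ n ∧ n ≤ N ∧ P n}.ncard : ℝ) / N) atTop (𝓝 δ)

/-- words `w` of length `K` over `{0,1}` with `3^(w_0+...+w_(k-1)) / 2^k < lam` for `1 ≤ k ≤ K` -/
def safeWords (K : ℕ) (lam : ℝ) : Set (Fin K → Fin 2) :=
  {w | ∀ k, 1 ≤ k → k ≤ K →
    (3 : ℝ) ^ (∑ i ∈ Finset.univ.filter (fun i : Fin K => (i : ℕ) < k), (w i : ℕ)) < lam * 2 ^ k}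

/-- Law of the maximum excursion. -/
theorem result : ∃ β : ℝ, 0 < β ∧ β ≤ 1 ∧ (β = 1 ↔ ∀ n : ℕ, 1 ≤ n → FiniteExcursion n) ∧
    HasDensity FiniteExcursion β ∧
    ∃ q : ℝ → ℝ, ∀ lam : ℝ, 1 ≤ lam → 1 - 1 / lam ≤ q lam ∧ q lam ≤ 1 ∧
      Tendsto (fun K : ℕ => ((safeWords K lam).ncard : ℝ) / 2 ^ K) atTop (𝓝 (q lam)) ∧
      HasDensity (fun n => ExcursionLE n (lam * n)) (β * q lam) := by
  obtain ⟨β, h0, h1, h2, h3⟩ := Pool.Agent.H499R2.ND.Bdd_density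
  refine ⟨β, h0, h1, h2, h3, ?_⟩
  have h : ∀ lam : ℝ, ∃ q : ℝ, 1 ≤ lam → 1 - 1 / lam ≤ q ∧ q ≤ 1 ∧
      Tendsto (fun K : ℕ => ((safeWords K lam).ncard : ℝ) / 2 ^ K) atTop (𝓝 q) ∧
      HasDensity (fun n => ExcursionLE n (lam * n)) (β * q) := by
    intro lam
    by_cases hl : 1 ≤ lam
    · obtain ⟨q, g1, g2, g3, g4⟩ := Pool.Agent.H499R2.ND.exc_law h3 hl
      refine ⟨q, fun _ => ⟨g2, g3, ?_, g4⟩⟩
      exact g1.congr fun K => Pool.Agent.H499R2.ND.rK_words K lam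
    · exact ⟨0, fun h' => absurd h' hl⟩
  choose q hq using h
  exact ⟨q, hq⟩

end Pool.Agent.Results.MP_0a5adf_nt.ExcursionLaw
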