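import Mathlib
import Pool.Agent.H319R2.LlnFinal

set_option autoImplicit false

/-!
The tail of the distribution of the maximum excursion before the descent to a power of the logarithm.
-/

namespace Pool.Agent.Results.MP_0a5adf_nt.ExcursionTail

open Filter

/-- The accelerated `3x+1` map. -/
def T (n : ℕ) : ℕ := if n % 2 = 0 then n / 2 else (3 * n + 1) / 2

theorem T_eq : T = Pool.Agent.Helper894.Collatz.T := rfl

/-- For every `A > 0` there is `B` such that for all large `x` and all `lam ≥ 1`: all positive integers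
`n ≤ x`, with at most `x (log x)^4 / lam + x / (log x)^A` exceptions, have a trajectory which comes
down to at most `(log x)^B` and stays at most `lam x` until then. -/
theorem result (A : ℝ) (hA : 0 < A) : ∃ B : ℝ, ∀ᶠ x : ℝ in atTop, ∀ lam : ℝ, 1 ≤ lam →
    (Set.ncard {n : ℕ | 1 ≤ n ∧ (n : ℝ) ≤ x ∧
      ¬ ∃ m : ℕ, ((T^[m] n : ℕ) : ℝ) ≤ Real.log x ^ B ∧
        ∀ j ≤ m, ((T^[j] n : ℕ) : ℝ) ≤ lam * x} : ℝ) ≤
      x * Real.log x ^ 4 / lam + x / Real.log x ^ A := by
  classical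
  obtain ⟨B, -, hB⟩ := Pool.Agent.H319R2.Lln.lln 1 A one_pos hA.le
  refine ⟨B, ?_⟩
  filter_upwards [hB, eventually_gt_atTop 0] with x hx hx0 lam hlam
  set E := {n : ℕ | 1 ≤ n ∧ (n : ℝ) ≤ x ∧
      ¬ ∃ m : ℕ, ((T^[m] n : ℕ) : ℝ) ≤ Real.log x ^ B ∧
        ∀ j ≤ m, ((T^[j] n : ℕ) : ℝ) ≤ lam * x} with hE
  have hfin : E.Finite := by
    apply (Set.finite_Iic ⌊x⌋₊).subset
    intro n hn
    exact Nat.le_floor hn.2.1
  rw [Set.ncard_eq_toFinset_card E hfin]
  have h := hx (lam * x) (by nlinarith) hfin.toFinset (by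
    intro n hn
    rw [Set.Finite.mem_toFinset] at hn
    refine ⟨hn.1, hn.2.1, fun hP => hn.2.2 ?_⟩
    obtain ⟨m0, h1, h2⟩ := hP
    exact ⟨m0, h1, fun j hj => (h2 j hj).2⟩)
  refine h.trans (le_of_eq ?_)
  have hl : 0 < lam := by linarith
  field_simp
  ring

end Pool.Agent.Results.MP_0a5adf_nt.ExcursionTail
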