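import Pool.Agent.H499R2.HL.E

set_option autoImplicit false

/-! The joint law of the maximum excursion and the total stopping time. -/

namespace Pool.Agent.Results.MP_0a5adf_nt.JointLaw

open Filter Topology

/-- the accelerated `3x+1` map -/
def T (n : ℕ) : ℕ := if n % 2 = 0 then n / 2 else (3 * n + 1) / 2

/-- `t(n) ≤ c` -/
def ExcursionLE (n : ℕ) (c : ℝ) : Prop := ∀ k, (T^[k] n : ℝ) ≤ c

/-- `k` is the first time at which the trajectory of `n` visits `1` -/
def IsTotalStoppingTime (n k : ℕ) : Prop := T^[k] n = 1 ∧ ∀ j < k, T^[j] n ≠ 1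

/-- the number of odd terms among `n, T n, ..., T^(k-1) n` -/
def odds (k n : ℕ) : ℕ := ((Finset.range k).filter fun i => T^[i] n % 2 = 1).card

/-- the positive integers with the property `P` have the natural density `δ` -/
def HasDensity (P : ℕ → Prop) (δ : ℝ) : Prop :=
  Tendsto (fun N : ℕ => ({n : ℕ | 1 ≤ n ∧ n ≤ N ∧ P n}.ncard : ℝ) / N) atTop (𝓝 δ)

/-- words `w` of length `K` over `{0,1}` with `3^(w_0+...+w_(k-1)) / 2^k < lam` for `1 ≤ k ≤ K` -/
def safeWords (K : ℕ) (lam : ℝ) : Set (Fin K → Fin 2) :=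
  {w | ∀ k, 1 ≤ k → k ≤ K →
    (3 : ℝ) ^ (∑ i ∈ Finset.univ.filter (fun i : Fin K => (i : ℕ) < k), (w i : ℕ)) < lam * 2 ^ k}

/-- `2 / log (4/3) * log n + x * log 3 * √(2 log n / (log (4/3))^3)` -/
noncomputable def bound (x : ℝ) (n : ℕ) : ℝ :=
  2 / Real.log (4 / 3) * Real.log n
    + x * (Real.log 3 * Real.sqrt (2 * Real.log n / Real.log (4 / 3) ^ 3))

/-- The distribution function of the standard normal law. -/
noncomputable def Phi (x : ℝ) : ℝ :=
  ProbabilityTheory.cdf (ProbabilityTheory.gaussianReal 0 1) x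

/-- JOINT LAW of the maximum excursion and the total stopping time. The integers which reach `1` have
a positive natural density `δ`. There is a function `q` such that for every `lam ≥ 1` the proportion of
safe words tends to `q lam ≥ 1 - 1 / lam`, and for every real `x`, all `m ≥ 1` and `a`, `b` the `n`
with `t(n) ≤ lam * n` which reach `1` for the first time at a time `k ≤ bound x n`, `k ≡ a`, with a
number of odd terms before `≡ b` modulo `m`, have natural density `δ * q lam * Phi x / m ^ 2`. -/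
theorem result : ∃ δ : ℝ, 0 < δ ∧ δ ≤ 1 ∧ (δ = 1 ↔ ∀ n : ℕ, 1 ≤ n → ∃ k, T^[k] n = 1) ∧
    HasDensity (fun n => ∃ k, T^[k] n = 1) δ ∧
    ∃ q : ℝ → ℝ, ∀ lam : ℝ, 1 ≤ lam → 1 - 1 / lam ≤ q lam ∧ q lam ≤ 1 ∧
      Tendsto (fun K : ℕ => ((safeWords K lam).ncard : ℝ) / 2 ^ K) atTop (𝓝 (q lam)) ∧
      ∀ (m : ℕ) (a b : ℤ), 1 ≤ m → ∀ x : ℝ,
        HasDensity (fun n => ExcursionLE n (lam * n) ∧ ∃ k : ℕ, (k : ℝ) ≤ bound x n ∧
          IsTotalStoppingTime n k ∧ (k : ℤ) ≡ a [ZMOD m] ∧ (odds k n : ℤ) ≡ b [ZMOD m])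
          (δ * q lam * Phi x / m ^ 2) := by
  obtain ⟨δ, h0, h1, h2, h3, q, hq⟩ := Pool.Agent.H499R2.HL.joint_law
  refine ⟨δ, h0, h1, h2, h3, q, fun lam hl => ?_⟩
  obtain ⟨g1, g2, g3, g4⟩ := hq lam hl
  refine ⟨g1, g2, g3.congr fun K => Pool.Agent.H499R2.ND.rK_words K lam, fun m a b hm x => ?_⟩
  have h5 := g4 m a b hm x
  have e : δ / (m : ℝ) ^ 2 * Pool.Agent.H499R2.ND.Phi x * q lam = δ * q lam * Phi x / m ^ 2 := by
    unfold Phi
    rw [← Pool.Agent.H499R2.ND.phi_cdf]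
    ring
  rw [e] at h5
  refine Pool.Agent.H499R2.LT.Dn_iff (fun n hn => ?_) h5
  rw [and_comm]
  exact Iff.rfl

end Pool.Agent.Results.MP_0a5adf_nt.JointLaw
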