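import Mathlib
import Pool.Agent.H499R2.CO.R6
import Pool.Agent.H499R2.NDCol
import Pool.Agent.H499R2.NDWord

set_option autoImplicit false

/-! Sparse sufficient sets for the maximum excursions of the `3x+1` map. -/

namespace Pool.Agent.Results.MP_0a5adf_nt.SufficientSets

open Filter Topology

/-- the accelerated `3x+1` map -/
def T (n : ℕ) : ℕ := if n % 2 = 0 then n / 2 else (3 * n + 1) / 2

/-- `t(n) < ∞` -/
def FiniteExcursion (n : ℕ) : Prop := ∃ M : ℕ, ∀ k, T^[k] n ≤ M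

/-- `t(n) ≤ c` -/
def ExcursionLE (n : ℕ) (c : ℝ) : Prop := ∀ k, (T^[k] n : ℝ) ≤ c

/-- the positive integers with the property `P` have the natural density `δ` -/
def HasDensity (P : ℕ → Prop) (δ : ℝ) : Prop :=
  Tendsto (fun N : ℕ => ({n : ℕ | 1 ≤ n ∧ n ≤ N ∧ P n}.ncard : ℝ) / N) atTop (𝓝 δ)

/-- SUFFICIENT SETS. Let `g n = o(√(log n) / log log n)` and let the set `W` meet the interval
`[n, n + g n]` for every large `n`. If `t(w) < ∞` for all large `w` in `W` (in particular if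
`t(w) ≤ A w ^ 2` for these `w`), then `t(n) < ∞` for every `n ≥ 1`, and for every function `f` which
tends to infinity almost all `n` satisfy `t(n) ≤ f(n) * n`. -/
theorem result (g : ℕ → ℕ)
    (hg : Tendsto (fun n : ℕ => (g n : ℝ) * Real.log (Real.log n) / √ (Real.log n)) atTop (𝓝 0))
    (W : Set ℕ) (hW : ∀ᶠ n : ℕ in atTop, ∃ j ≤ g n, n + j ∈ W)
    (h : ∀ᶠ n : ℕ in atTop, n ∈ W → FiniteExcursion n) :
    (∀ n : ℕ, 1 ≤ n → FiniteExcursion n) ∧
    ∀ f : ℕ → ℝ, Tendsto f atTop atTop → HasDensity (fun n => ExcursionLE n (f n * n)) 1 := by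
  have hinv : ∀ n, 1 ≤ n → (FiniteExcursion n ↔ FiniteExcursion (Pool.Agent.H499R2.ND.Tn n)) :=
    fun n _ => Pool.Agent.H499R2.ND.Bdd_inv n
  obtain ⟨δ, _, _, h1, _, h3⟩ := Pool.Agent.H499R2.ND.nat_density (P := FiniteExcursion) hinv
  have h6 := (Pool.Agent.H499R2.CO.run_invN (g := g) hg hinv h1).2
  obtain ⟨N1, hN1⟩ := eventually_atTop.1 hW
  obtain ⟨N2, hN2⟩ := eventually_atTop.1 h
  have h7 : Pool.Agent.H499R2.ND.Dn (fun n => ∀ h : ℕ, h ≤ g n → ¬ FiniteExcursion (n + h)) 0 := by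
    refine Pool.Agent.H499R2.ND.zd_mono (Pool.Agent.H499R2.ND.zd_bdd (max N1 N2 : ℕ)) fun n hn hno => ?_
    by_contra hlt
    rw [not_le] at hlt
    have hlt' : max N1 N2 < n := by exact_mod_cast hlt
    obtain ⟨j, hj, hjW⟩ := hN1 n ((le_max_left _ _).trans hlt'.le)
    exact hno j hj (hN2 (n + j) (((le_max_right _ _).trans hlt'.le).trans (Nat.le_add_right _ _)) hjW)
  have h8 : 1 - δ = 0 := tendsto_nhds_unique h6 h7
  have hall : ∀ n, 1 ≤ n → FiniteExcursion n := h3.1 (by linarith)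
  refine ⟨hall, fun f hf => ?_⟩
  have hδ : δ = 1 := by linarith
  have hB : Pool.Agent.H499R2.ND.Dn Pool.Agent.H499R2.ND.Bdd 1 := by rw [← hδ]; exact h1
  -- every level
  have hlev : ∀ lam : ℝ, 1 ≤ lam → ∃ q : ℝ, 1 - 1 / lam ≤ q ∧ q ≤ 1 ∧
      Pool.Agent.H499R2.ND.Dn (fun n => ExcursionLE n (lam * n)) q := by
    intro lam hl
    obtain ⟨q, _, g2, g3, g4⟩ := Pool.Agent.H499R2.ND.exc_law hB hl
    rw [one_mul] at g4
    exact ⟨q, g2, g3, g4⟩
  unfold HasDensity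
  rw [Metric.tendsto_atTop]
  intro ε hε
  obtain ⟨lam, hlam⟩ : ∃ lam : ℝ, max 1 (4 / ε) < lam := exists_gt _
  have hl1 : 1 < lam := (le_max_left _ _).trans_lt hlam
  have hl2 : 1 / lam < ε / 4 := by
    have h4 : 4 / ε < lam := (le_max_right _ _).trans_lt hlam
    rw [div_lt_iff₀ hε] at h4
    rw [div_lt_div_iff₀ (by linarith) (by norm_num)]
    linarith
  obtain ⟨q, q1, q2, q3⟩ := hlev lam hl1.le
  obtain ⟨M, hM⟩ := eventually_atTop.1 (hf.eventually_ge_atTop lam)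
  have a1 := Metric.tendsto_atTop.1 q3 (ε / 4) (by positivity)
  obtain ⟨N3, hN3⟩ := a1
  obtain ⟨N4, hN4⟩ := eventually_atTop.1
    (Pool.Agent.H499R2.ND.zd_iff.1 (Pool.Agent.H499R2.ND.zd_bdd (M : ℕ)) (ε / 4) (by positivity))
  refine ⟨max (max N3 N4) 1, fun N hN => ?_⟩
  have g1 := hN3 N ((le_max_left _ _).trans ((le_max_left _ _).trans hN))
  have g2 := hN4 N ((le_max_right _ _).trans ((le_max_left _ _).trans hN))
  have g4 : 1 ≤ N := (le_max_right _ _).trans hN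
  have hNR : (0 : ℝ) < N := by exact_mod_cast g4
  have i1 : Pool.Agent.H499R2.ND.cnt (fun n => ExcursionLE n (lam * n)) N
      ≤ Pool.Agent.H499R2.ND.cnt (fun n => ExcursionLE n (f n * n)) N
        + Pool.Agent.H499R2.ND.cnt (fun n : ℕ => (n : ℝ) ≤ (M : ℕ)) N := by
    refine Pool.Agent.H499R2.ND.cnt_or N fun n hn _ hx => ?_
    rcases Nat.lt_or_ge M n with hc | hc
    · refine Or.inl fun k => (hx k).trans ?_
      exact mul_le_mul_of_nonneg_right (hM n hc.le) (Nat.cast_nonneg n)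
    · exact Or.inr (by exact_mod_cast hc)
  have i2 : ({n : ℕ | 1 ≤ n ∧ n ≤ N ∧ ExcursionLE n (f n * n)}.ncard : ℝ) ≤ N := by
    have h9 : {n : ℕ | 1 ≤ n ∧ n ≤ N ∧ ExcursionLE n (f n * n)} ⊆ Set.Icc 1 N := fun n hn => ⟨hn.1, hn.2.1⟩
    have h10 := Set.ncard_le_ncard h9 (Set.finite_Icc 1 N)
    rw [Set.ncard_Icc_nat, Nat.add_sub_cancel] at h10
    exact_mod_cast h10
  have e : Pool.Agent.H499R2.ND.cnt (fun n => ExcursionLE n (f n * n)) N
      = ({n : ℕ | 1 ≤ n ∧ n ≤ N ∧ ExcursionLE n (f n * n)}.ncard : ℝ) := rfl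
  rw [e] at i1
  rw [Real.dist_eq, abs_lt] at g1 ⊢
  have j1 : ({n : ℕ | 1 ≤ n ∧ n ≤ N ∧ ExcursionLE n (f n * n)}.ncard : ℝ) / N ≤ 1 := by
    rw [div_le_one hNR]; exact i2
  have j2 : Pool.Agent.H499R2.ND.cnt (fun n => ExcursionLE n (lam * n)) N / N
      ≤ ({n : ℕ | 1 ≤ n ∧ n ≤ N ∧ ExcursionLE n (f n * n)}.ncard : ℝ) / N + ε / 4 := by
    rw [div_add' _ _ _ hNR.ne']
    exact div_le_div_of_nonneg_right (by linarith) hNR.le
  constructor <;> linarith [g1.1, g1.2]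

end Pool.Agent.Results.MP_0a5adf_nt.SufficientSets
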